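import Pool.Agent.H78.SQ.Rat

set_option autoImplicit false

/-!
# Digit changes of fractions whose denominator is divisible by the square of a prime number
-/

namespace Pool.Agent.H78.SQ

lemma pow_modEq {m g c : ℕ} (hmg : m ∣ g * g) (d : ℕ) :
    (1 + g * c) ^ d ≡ 1 + d * (g * c) [MOD m] := by
  induction d with
  | zero => simp; exact Nat.ModEq.refl _
  | succ d ih =>
    have h1 := ih.mul_right (1 + g * c)
    rw [← pow_succ] at h1
    refine h1.trans ?_
    have e : (1 + d * (g * c)) * (1 + g * c) = 1 + (d + 1) * (g * c) + g * g * (d * c * c) := by ring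
    rw [e]
    have h2 : g * g * (d * c * c) ≡ 0 [MOD m] :=
      (Nat.modEq_zero_iff_dvd).2 (Dvd.dvd.mul_right hmg _)
    simpa using (Nat.ModEq.refl (1 + (d + 1) * (g * c))).add h2

/-- the residues of a class modulo `g = m / p` in the middle half -/
lemma count_middle {p g h c₀ : ℕ} (hp : p = 2 * h + 1) (hg : 0 < g) (hc : c₀ < g) (hh : 0 < h)
    (hodd : Odd (p * g)) :
    h ≤ {q ∈ Finset.range p | p * g < 4 * (c₀ + g * q) ∧ 4 * (c₀ + g * q) < 3 * (p * g)}.card := by
  classical
  have hex : ∃ q, p * g < 4 * (c₀ + g * q) := by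
    refine ⟨p, ?_⟩
    have : 0 < p * g := Nat.mul_pos (by omega) hg
    rw [mul_comm g p]; omega
  have h1 := Nat.find_spec hex
  have h2 := fun j (hj : j < Nat.find hex) => Nat.find_min hex hj
  set q₀ := Nat.find hex with hq₀
  have hup : ∀ t < h, 4 * (c₀ + g * (q₀ + t)) < 3 * (p * g) := by
    intro t ht
    have ht' : g * t ≤ g * (h - 1) := Nat.mul_le_mul_left _ (by omega)
    have e1 : g * (h - 1) + g = g * h := by
      conv_rhs => rw [show h = (h - 1) + 1 by omega]
      ring
    have e2 : p * g = 2 * (g * h) + g := by rw [hp]; ring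
    rcases Nat.eq_zero_or_pos q₀ with h0 | h0
    · rw [h0, zero_add]
      omega
    · have h3 := h2 (q₀ - 1) (by omega)
      have e3 : g * (q₀ - 1) + g = g * q₀ := by
        conv_rhs => rw [show q₀ = (q₀ - 1) + 1 by omega]
        ring
      rw [mul_add g]
      have e4 : p * g ≠ 4 * (c₀ + g * (q₀ - 1)) := by
        intro h; rw [h] at hodd
        have : Even (4 * (c₀ + g * (q₀ - 1))) := ⟨2 * (c₀ + g * (q₀ - 1)), by ring⟩
        exact (Nat.not_even_iff_odd.2 hodd) this
      omega
  have hsub : Finset.image (fun t => q₀ + t) (Finset.range h) ⊆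
      {q ∈ Finset.range p | p * g < 4 * (c₀ + g * q) ∧ 4 * (c₀ + g * q) < 3 * (p * g)} := by
    intro q hq
    obtain ⟨t, ht, rfl⟩ := Finset.mem_image.1 hq
    have ht' := Finset.mem_range.1 ht
    have h3 := hup t ht'
    refine Finset.mem_filter.2 ⟨Finset.mem_range.2 ?_, ?_, h3⟩
    · by_contra hge
      have : g * p ≤ g * (q₀ + t) := Nat.mul_le_mul_left _ (by omega)
      rw [mul_comm p g] at h3
      omega
    · have : g * q₀ ≤ g * (q₀ + t) := Nat.mul_le_mul_left _ (by omega)
      omega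
  have := Finset.card_le_card hsub
  rw [Finset.card_image_of_injective _ (fun a b hab => by simpa using hab), Finset.card_range] at this
  exact this

lemma block {p g h T b : ℕ} (hp : p.Prime) (hph : p = 2 * h + 1) (hh : 0 < h) (hodd : Odd (p * g))
    (hpg : p ∣ g) (hT1 : g ∣ 2 ^ T - 1) (hT2 : ¬ p * g ∣ 2 ^ T - 1) (hb : ¬ p ∣ b) :
    h ≤ ∑ j ∈ Finset.range p, (if Good (p * g) (b * 2 ^ (j * T)) then 1 else 0) := by
  classical
  have hg : 0 < g := Nat.pos_of_ne_zero (by rintro rfl; simp at hodd)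
  obtain ⟨c, hc⟩ := hT1
  have hz : 2 ^ T = 1 + g * c := by
    have := Nat.one_le_two_pow (n := T); omega
  have hpc : ¬ p ∣ c := by
    intro h; apply hT2; rw [hc, mul_comm p g]; exact Nat.mul_dvd_mul_left g h
  have hmg : p * g ∣ g * g := Nat.mul_dvd_mul_right hpg g
  have hR : ∀ j, (b * 2 ^ (j * T)) ≡ b + b * (j * (g * c)) [MOD (p * g)] := by
    intro j
    have h1 := (pow_modEq (c := c) hmg j).mul_left b
    rw [mul_comm j T, pow_mul, hz]
    refine h1.trans ?_
    rw [mul_add, mul_one]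
  have hRg : ∀ j, ((b * 2 ^ (j * T)) % (p * g)) % g = b % g := by
    intro j
    rw [Nat.mod_mul_left_mod]
    have h1 : (b * 2 ^ (j * T)) ≡ b + b * (j * (g * c)) [MOD g] := (hR j).of_dvd (Dvd.intro_left p rfl)
    have h2 : b + b * (j * (g * c)) ≡ b [MOD g] := by
      have : b * (j * (g * c)) ≡ 0 [MOD g] := (Nat.modEq_zero_iff_dvd).2 ⟨b * (j * c), by ring⟩
      simpa using (Nat.ModEq.refl b).add this
    exact h1.trans h2
  have hRe : ∀ j, (b * 2 ^ (j * T)) % (p * g) = b % g + g * (((b * 2 ^ (j * T)) % (p * g)) / g) := by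
    intro j
    have := Nat.mod_add_div ((b * 2 ^ (j * T)) % (p * g)) g
    rw [hRg j] at this
    exact this.symm
  set f : ℕ → ℕ := fun j => ((b * 2 ^ (j * T)) % (p * g)) / g with hf
  have hfr : ∀ j, f j < p := by
    intro j
    have : (b * 2 ^ (j * T)) % (p * g) < p * g := Nat.mod_lt _ hodd.pos
    exact (Nat.div_lt_iff_lt_mul hg).2 this
  have hinj : Set.InjOn f (Finset.range p : Set ℕ) := by
    intro j hj j' hj' hjj
    have hj := Finset.mem_range.1 (Finset.mem_coe.1 hj)
    have hj' := Finset.mem_range.1 (Finset.mem_coe.1 hj')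
    have h1 : (b * 2 ^ (j * T)) ≡ (b * 2 ^ (j' * T)) [MOD (p * g)] := by
      unfold Nat.ModEq; rw [hRe j, hRe j']; exact congrArg (fun t => b % g + g * t) hjj
    have h2 : b + b * (j * (g * c)) ≡ b + b * (j' * (g * c)) [MOD (p * g)] :=
      ((hR j).symm.trans h1).trans (hR j')
    have h3 : b * (j * (g * c)) ≡ b * (j' * (g * c)) [MOD (p * g)] := Nat.ModEq.add_left_cancel' _ h2
    have h4 : g * (b * c * j) ≡ g * (b * c * j') [MOD (g * p)] := by
      rw [mul_comm g p]
      convert h3 using 1 <;> ring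
    have h5 : b * c * j ≡ b * c * j' [MOD p] := Nat.ModEq.mul_left_cancel' hg.ne' h4
    have hcop : Nat.gcd p (b * c) = 1 := by
      apply (Nat.Prime.coprime_iff_not_dvd hp).2
      intro h; rcases (Nat.Prime.dvd_mul hp).1 h with h | h
      · exact hb h
      · exact hpc h
    have h6 : j ≡ j' [MOD p] := Nat.ModEq.cancel_left_of_coprime hcop h5
    exact Nat.ModEq.eq_of_lt_of_lt h6 hj hj'
  have himg : Finset.image f (Finset.range p) = Finset.range p := by
    apply Finset.eq_of_subset_of_card_le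
    · intro q hq
      obtain ⟨j, _, rfl⟩ := Finset.mem_image.1 hq
      exact Finset.mem_range.2 (hfr j)
    · rw [Finset.card_image_of_injOn hinj]
  rw [← Finset.card_filter]
  refine (count_middle hph hg (Nat.mod_lt b hg) hh hodd).trans ?_
  apply Finset.card_le_card_of_surjOn f
  intro q hq
  have hq := Finset.mem_filter.1 (Finset.mem_coe.1 hq)
  rw [← himg] at hq
  obtain ⟨j, hj, rfl⟩ := Finset.mem_image.1 hq.1
  refine ⟨j, ?_, rfl⟩
  rw [Finset.mem_coe, Finset.mem_filter]
  refine ⟨hj, ?_⟩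
  unfold Good
  rw [hRe j]
  exact hq.2

lemma sum_range_mul (f : ℕ → ℕ) (p T : ℕ) :
    ∑ i ∈ Finset.range (p * T), f i = ∑ j ∈ Finset.range p, ∑ k ∈ Finset.range T, f (j * T + k) := by
  induction p with
  | zero => simp
  | succ p ih =>
    rw [Nat.succ_mul, Finset.sum_range_add, ih, Finset.sum_range_succ]

/-- in every block of `p T` places there are at least `T (p - 1) / 2` digit changes -/
lemma block_sum {p g h T b : ℕ} (hp : p.Prime) (hph : p = 2 * h + 1) (hh : 0 < h)
    (hodd : Odd (p * g))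
    (hpg : p ∣ g) (hT1 : g ∣ 2 ^ T - 1) (hT2 : ¬ p * g ∣ 2 ^ T - 1) (hb : ¬ p ∣ b) (s : ℕ) :
    T * h ≤ ∑ i ∈ Finset.range (p * T), (if Good (p * g) (b * 2 ^ (s + i)) then 1 else 0) := by
  rw [sum_range_mul, Finset.sum_comm]
  have h1 : ∀ k ∈ Finset.range T, h ≤ ∑ j ∈ Finset.range p,
      (if Good (p * g) (b * 2 ^ (s + (j * T + k))) then 1 else 0) := by
    intro k _
    have hb' : ¬ p ∣ b * 2 ^ (s + k) := by
      intro hd
      rcases (Nat.Prime.dvd_mul hp).1 hd with hd | hd
      · exact hb hd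
      · have := hp.dvd_of_dvd_pow hd
        have := Nat.le_of_dvd (by norm_num) this
        omega
    refine (block hp hph hh hodd hpg hT1 hT2 hb').trans (le_of_eq ?_)
    refine Finset.sum_congr rfl fun j _ => ?_
    rw [show b * 2 ^ (s + k) * 2 ^ (j * T) = b * 2 ^ (s + (j * T + k)) by
      rw [mul_assoc, ← pow_add]; congr 2; ring]
  have := Finset.sum_le_sum h1
  rw [Finset.sum_const, Finset.card_range, smul_eq_mul] at this
  exact this

end Pool.Agent.H78.SQ
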