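import Pool.Agent.H78.SQ.Weight

set_option autoImplicit false

/-!
# Binary digits of real numbers: zeros, ones, digit changes, and products
-/

namespace Pool.Agent.H78.SQ

/-- the binary digit of `x` at the place `k` (for `x ≥ 0`) -/
noncomputable def bit (x : ℝ) (k : ℕ) : ℤ := ⌊x * 2 ^ k⌋ % 2

noncomputable def ones (x : ℝ) (n : ℕ) : ℕ := {k ∈ Finset.Icc 1 n | bit x k = 1}.card

noncomputable def zeros (x : ℝ) (n : ℕ) : ℕ := {k ∈ Finset.Icc 1 n | bit x k = 0}.card

/-- number of `k < n` with different digits at the places `k` and `k + 1` -/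
noncomputable def changes (x : ℝ) (n : ℕ) : ℕ := {k ∈ Finset.range n | bit x k ≠ bit x (k + 1)}.card

/-- the least of the numbers of zeros, of ones and of digit changes -/
noncomputable def least (x : ℝ) (n : ℕ) : ℕ := min (zeros x n) (min (ones x n) (changes x n))

/-- the integer formed by the digits up to the place `n` -/
noncomputable def pre (x : ℝ) (n : ℕ) : ℤ := ⌊x * 2 ^ n⌋

lemma pre_succ_div (x : ℝ) (n : ℕ) : pre x (n + 1) / 2 = pre x n := by
  unfold pre
  have h : x * 2 ^ n = (x * 2 ^ (n + 1)) / ((2 : ℕ) : ℝ) := by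
    rw [pow_succ]; push_cast; ring
  rw [h, Int.floor_div_natCast]
  norm_num

lemma bit_eq (x : ℝ) (n : ℕ) : bit x n = pre x n % 2 := rfl

lemma pre_succ (x : ℝ) (n : ℕ) : pre x (n + 1) = 2 * pre x n + bit x (n + 1) := by
  have h := pre_succ_div x n
  have h2 := bit_eq x (n + 1)
  omega

lemma bit_cases (x : ℝ) (n : ℕ) : bit x n = 0 ∨ bit x n = 1 := by
  unfold bit; omega

lemma Icc_succ (n : ℕ) : Finset.Icc 1 (n + 1) = insert (n + 1) (Finset.Icc 1 n) := by
  ext k; simp only [Finset.mem_Icc, Finset.mem_insert]; omega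

lemma ones_succ (x : ℝ) (n : ℕ) :
    ones x (n + 1) = ones x n + (if bit x (n + 1) = 1 then 1 else 0) := by
  unfold ones
  rw [Icc_succ, Finset.filter_insert]
  split_ifs with h
  · rw [Finset.card_insert_of_notMem (by simp)]
  · simp

lemma zeros_succ (x : ℝ) (n : ℕ) :
    zeros x (n + 1) = zeros x n + (if bit x (n + 1) = 0 then 1 else 0) := by
  unfold zeros
  rw [Icc_succ, Finset.filter_insert]
  split_ifs with h
  · rw [Finset.card_insert_of_notMem (by simp)]
  · simp

lemma changes_succ (x : ℝ) (n : ℕ) :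
    changes x (n + 1) = changes x n + (if bit x n ≠ bit x (n + 1) then 1 else 0) := by
  unfold changes
  rw [Finset.range_add_one, Finset.filter_insert]
  split_ifs with h
  · rw [Finset.card_insert_of_notMem (by simp)]
  · simp

/-- digit changes of the prefix -/
lemma changes_eq (x : ℝ) (n : ℕ) : changes x n = ch n (pre x n) := by
  induction n with
  | zero => simp [changes, ch]
  | succ n ih =>
    rw [changes_succ, ih]
    simp only [ch, pre_succ_div, bit_eq]
    split_ifs <;> first | (simp_all; done) | (simp_all; omega)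

lemma W_double {m : ℕ} {z : ℤ} (h : W m z) : W m (2 * z) :=
  W_mul_unit h ⟨1, Or.inl (by norm_num)⟩

lemma W_pre_ones {x : ℝ} {m : ℕ} (h : W m ⌊x⌋) (n : ℕ) : W (m + ones x n) (pre x n) := by
  induction n with
  | zero => simpa [pre] using W_mono h (by omega)
  | succ n ih =>
    rw [pre_succ, ones_succ, ← add_assoc]
    refine W_add (W_double ih) ?_
    rcases bit_cases x (n + 1) with h | h <;> rw [h]
    · simpa using W_zero
    · simpa using W_one_pow 0

lemma W_pre_zeros {x : ℝ} {m : ℕ} (h : W m (⌊x⌋ + 1)) (n : ℕ) :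
    W (m + zeros x n) (pre x n + 1) := by
  induction n with
  | zero => simpa [pre] using W_mono h (by omega)
  | succ n ih =>
    have e : pre x (n + 1) + 1 = 2 * (pre x n + 1) + (bit x (n + 1) - 1) := by
      rw [pre_succ]; ring
    rw [e, zeros_succ, ← add_assoc]
    refine W_add (W_double ih) ?_
    rcases bit_cases x (n + 1) with h | h <;> rw [h]
    · simpa using W_one_neg_pow 0
    · simpa using W_zero

lemma W_pre_changes {x : ℝ} {m : ℕ} (h : W m (⌊x⌋ + ⌊x⌋ % 2)) (n : ℕ) :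
    W (m + changes x n) (pre x n + bit x n) := by
  induction n with
  | zero => simpa [pre, bit] using W_mono h (by omega)
  | succ n ih =>
    have e : pre x (n + 1) + bit x (n + 1) =
        2 * (pre x n + bit x n) + 2 * (bit x (n + 1) - bit x n) := by
      rw [pre_succ]; ring
    rw [e, changes_succ, ← add_assoc]
    refine W_add (W_double ih) ?_
    rcases bit_cases x (n + 1) with h | h <;> rcases bit_cases x n with h' | h' <;> rw [h, h']
    · simpa using W_zero
    · simpa using W_one_neg_pow 1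
    · simpa using W_one_pow 1
    · simpa using W_zero

/-- the weight of the prefix -/
lemma W_pre {x : ℝ} {m : ℕ} (h1 : W (m + 2) ⌊x⌋) (h2 : W (m + 1) (⌊x⌋ + 1))
    (h3 : W (m + 1) (⌊x⌋ + ⌊x⌋ % 2)) (n : ℕ) : W (m + 2 + least x n) (pre x n) := by
  have hA := W_pre_ones h1 n
  have hB : W (m + 2 + zeros x n) (pre x n) := by
    have := W_add (W_pre_zeros h2 n) (W_one_neg_pow 0)
    rw [pow_zero, add_neg_cancel_right] at this
    exact W_mono this (by omega)
  have hC : W (m + 2 + changes x n) (pre x n) := by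
    have h5 := W_pre_changes h3 n
    rcases bit_cases x n with h | h <;> rw [h] at h5
    · rw [add_zero] at h5
      exact W_mono h5 (by omega)
    · have := W_add h5 (W_one_neg_pow 0)
      rw [pow_zero, add_neg_cancel_right] at this
      exact W_mono this (by omega)
  unfold least
  rcases min_cases (zeros x n) (min (ones x n) (changes x n)) with ⟨h, _⟩ | ⟨h, _⟩
  · rw [h]; exact hB
  · rw [h]
    rcases min_cases (ones x n) (changes x n) with ⟨h, _⟩ | ⟨h, _⟩
    · rw [h]; exact hA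
    · rw [h]; exact hC

lemma W_nat (j : ℕ) : W j (j : ℤ) := by
  induction j with
  | zero => simpa using W_zero
  | succ j ih =>
    push_cast
    exact W_add ih (by simpa using W_one_pow 0)

/-- for every `x ≥ 0` -/
lemma W_pre' {x : ℝ} (hx : 0 ≤ x) (n : ℕ) : W (⌊x⌋₊ + 2 + least x n) (pre x n) := by
  have h0 : (⌊x⌋ : ℤ) = (⌊x⌋₊ : ℤ) := (Int.natCast_floor_eq_floor hx).symm
  refine W_pre ?_ ?_ ?_ n
  · rw [h0]; exact W_mono (W_nat _) (by omega)
  · rw [h0]
    have := W_nat (⌊x⌋₊ + 1)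
    push_cast at this
    exact this
  · rw [h0]
    rcases Nat.mod_two_eq_zero_or_one ⌊x⌋₊ with h | h
    · have : ((⌊x⌋₊ : ℤ)) % 2 = 0 := by omega
      rw [this, add_zero]; exact W_mono (W_nat _) (by omega)
    · have : ((⌊x⌋₊ : ℤ)) % 2 = 1 := by omega
      rw [this]
      have := W_nat (⌊x⌋₊ + 1)
      push_cast at this
      exact this

/-- the prefix of the product and the product of the prefixes -/
lemma pre_mul {x y : ℝ} (hx : 0 ≤ x) (hy : 0 ≤ y) {s : ℕ} (hs : x + y ≤ s) (n : ℕ) :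
    ∃ j : ℕ, j ≤ s ∧ pre (x * y) n = (pre x n * pre y n) / 2 ^ n + j := by
  have hX1 : (pre x n : ℝ) ≤ x * 2 ^ n := Int.floor_le _
  have hX2 : x * 2 ^ n < (pre x n : ℝ) + 1 := Int.lt_floor_add_one _
  have hY1 : (pre y n : ℝ) ≤ y * 2 ^ n := Int.floor_le _
  have hY2 : y * 2 ^ n < (pre y n : ℝ) + 1 := Int.lt_floor_add_one _
  have hX0 : (0 : ℤ) ≤ pre x n := Int.floor_nonneg.2 (by positivity)
  have hY0 : (0 : ℤ) ≤ pre y n := Int.floor_nonneg.2 (by positivity)
  have hX0' : (0 : ℝ) ≤ pre x n := by exact_mod_cast hX0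
  have hY0' : (0 : ℝ) ≤ pre y n := by exact_mod_cast hY0
  have hP1 : (pre (x * y) n : ℝ) ≤ x * y * 2 ^ n := Int.floor_le _
  have hP2 : x * y * 2 ^ n < (pre (x * y) n : ℝ) + 1 := Int.lt_floor_add_one _
  have h2 : (0 : ℝ) < 2 ^ n := by positivity
  have h2z : (0 : ℤ) < 2 ^ n := by positivity
  set X := pre x n
  set Y := pre y n
  set P := pre (x * y) n
  have hup : (X * Y) / 2 ^ n ≤ P := by
    apply Int.le_floor.2
    have h3 : (((X * Y) / 2 ^ n : ℤ) : ℝ) * 2 ^ n ≤ (X : ℝ) * Y := by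
      have := Int.ediv_mul_le (X * Y) h2z.ne'
      exact_mod_cast this
    have h4 : (X : ℝ) * Y ≤ (x * 2 ^ n) * (y * 2 ^ n) := mul_le_mul hX1 hY1 hY0' (by positivity)
    have h5 : (((X * Y) / 2 ^ n : ℤ) : ℝ) * 2 ^ n ≤ (x * y * 2 ^ n) * 2 ^ n := by
      refine (h3.trans h4).trans (le_of_eq ?_); ring
    exact le_of_mul_le_mul_right h5 h2
  have hlow : P - s ≤ (X * Y) / 2 ^ n := by
    apply (Int.le_ediv_iff_mul_le h2z).2
    have h6 : ((P - s : ℤ) : ℝ) * 2 ^ n ≤ (X : ℝ) * Y := by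
      push_cast
      have h8 : (P : ℝ) * 2 ^ n ≤ (x * y * 2 ^ n) * 2 ^ n := mul_le_mul_of_nonneg_right hP1 h2.le
      obtain ⟨a, ha⟩ : ∃ a : ℝ, (X : ℝ) = x * 2 ^ n - a := ⟨x * 2 ^ n - X, by ring⟩
      obtain ⟨b, hb⟩ : ∃ b : ℝ, (Y : ℝ) = y * 2 ^ n - b := ⟨y * 2 ^ n - Y, by ring⟩
      have ha0 : 0 ≤ a := by linarith
      have ha1 : a ≤ 1 := by linarith
      have hb0 : 0 ≤ b := by linarith
      have hb1 : b ≤ 1 := by linarith
      have h9 : a * (y * 2 ^ n) ≤ 1 * (y * 2 ^ n) := mul_le_mul_of_nonneg_right ha1 (by positivity)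
      have h10 : b * (x * 2 ^ n) ≤ 1 * (x * 2 ^ n) := mul_le_mul_of_nonneg_right hb1 (by positivity)
      have h11 : 0 ≤ a * b := mul_nonneg ha0 hb0
      have h12 : (x + y) * 2 ^ n ≤ s * 2 ^ n := mul_le_mul_of_nonneg_right hs h2.le
      rw [ha, hb]
      have e : (x * 2 ^ n - a) * (y * 2 ^ n - b) =
        (x * y * 2 ^ n) * 2 ^ n - a * (y * 2 ^ n) - b * (x * 2 ^ n) + a * b := by ring
      rw [e, sub_mul]
      linarith
    exact_mod_cast h6
  refine ⟨(P - (X * Y) / 2 ^ n).toNat, ?_, ?_⟩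
  · omega
  · omega

end Pool.Agent.H78.SQ
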