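import Pool.Agent.H78.SQ.Coset

set_option autoImplicit false

/-!
# Lower bounds for the numbers of zeros, ones and digit changes
-/

namespace Pool.Agent.H78.SQ

lemma exists_T {m p : ℕ} (hp : p.Prime) (hp2 : p ≠ 2) (hodd : Odd m) (hpm : p ^ 2 ∣ m)
    (hmax : ∀ l : ℕ, l.Prime → l ∣ m → ¬ p ∣ l - 1) (hW : ¬ p ^ 2 ∣ 2 ^ (p - 1) - 1) :
    ∃ g T : ℕ, m = p * g ∧ p ∣ g ∧ g ∣ 2 ^ T - 1 ∧ ¬ p * g ∣ 2 ^ T - 1 := by
  have : Fact p.Prime := ⟨hp⟩
  have hm0 : m ≠ 0 := hodd.pos.ne'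
  obtain ⟨t, ht⟩ := hpm
  have hmg : m = p * (p * t) := by rw [ht]; ring
  set g := p * t with hg
  have hg0 : g ≠ 0 := by rintro h; rw [h] at hmg; omega
  have hgodd : Odd g := (Nat.odd_mul.1 (hmg ▸ hodd)).2
  refine ⟨g, Nat.totient g, hmg, Dvd.intro t rfl, ?_, ?_⟩
  · have h := Nat.ModEq.pow_totient (n := g) (x := 2) (Nat.coprime_two_left.2 hgodd)
    exact (Nat.modEq_iff_dvd' Nat.one_le_two_pow).1 h.symm
  · intro hdvd
    rw [← hmg] at hdvd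
    have hT0 : Nat.totient g ≠ 0 := (Nat.totient_pos.2 (Nat.pos_of_ne_zero hg0)).ne'
    set e := padicValNat p m with he
    have hpe : p ^ e ∣ m := pow_padicValNat_dvd
    have hpe' : ¬ p ^ (e + 1) ∣ m := pow_succ_padicValNat_not_dvd hm0
    have he1 : 1 ≤ e := by
      rw [he]; exact one_le_padicValNat_of_dvd hm0 (Dvd.intro _ hmg.symm)
    -- lifting the exponent
    have hp3 : 2 < p := lt_of_le_of_ne hp.two_le (Ne.symm hp2)
    have h2p : ¬ p ∣ 2 := fun h => by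
      have := Nat.le_of_dvd (by norm_num) h; omega
    have hferm : p ∣ 2 ^ (p - 1) - 1 := by
      have h := Nat.ModEq.pow_totient (n := p) (x := 2)
        ((Nat.coprime_primes Nat.prime_two hp).2 (Ne.symm hp2))
      rw [Nat.totient_prime hp] at h
      exact (Nat.modEq_iff_dvd' Nat.one_le_two_pow).1 h.symm
    have h2p1 : 1 < 2 ^ (p - 1) := Nat.one_lt_two_pow (by omega)
    have hlte : padicValNat p ((2 ^ (p - 1)) ^ (Nat.totient g) - 1 ^ (Nat.totient g)) =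
        padicValNat p (2 ^ (p - 1) - 1) + padicValNat p (Nat.totient g) :=
      padicValNat.pow_sub_pow (hp.odd_of_ne_two hp2) h2p1 hferm
        (fun h => h2p (hp.dvd_of_dvd_pow h)) hT0
    have hv1 : padicValNat p (2 ^ (p - 1) - 1) ≤ 1 := by
      by_contra hcon
      apply hW
      exact (pow_dvd_pow p (by omega)).trans pow_padicValNat_dvd
    have hdvd2 : p ^ e ∣ (2 ^ (p - 1)) ^ (Nat.totient g) - 1 ^ (Nat.totient g) := by
      refine (hpe.trans hdvd).trans ?_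
      rw [← pow_mul, mul_comm (p - 1), pow_mul, one_pow]
      simpa using Nat.sub_dvd_pow_sub_pow (2 ^ Nat.totient g) 1 (p - 1)
    have hne : (2 ^ (p - 1)) ^ (Nat.totient g) - 1 ^ (Nat.totient g) ≠ 0 := by
      rw [one_pow]
      have := Nat.one_lt_pow hT0 h2p1
      omega
    have hle : e ≤ padicValNat p ((2 ^ (p - 1)) ^ (Nat.totient g) - 1 ^ (Nat.totient g)) :=
      (padicValNat_dvd_iff_le hne).1 hdvd2
    have hT1 : p ^ (e - 1) ∣ Nat.totient g :=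
      (pow_dvd_pow p (by omega)).trans pow_padicValNat_dvd
    -- the totient
    have htot := Nat.totient_mul_prod_primeFactors g
    have hpg : p ∣ ∏ l ∈ g.primeFactors, l :=
      Finset.dvd_prod_of_mem _ (Nat.mem_primeFactors.2 ⟨hp, Dvd.intro t rfl, hg0⟩)
    have h5 : p ^ e ∣ g * ∏ l ∈ g.primeFactors, (l - 1) := by
      rw [← htot]
      have := Nat.mul_dvd_mul hT1 hpg
      rwa [← pow_succ, Nat.sub_add_cancel he1] at this
    have h6 : Nat.Coprime (p ^ e) (∏ l ∈ g.primeFactors, (l - 1)) := by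
      apply Nat.Coprime.pow_left
      apply Nat.Coprime.prod_right
      intro l hl
      have hl := Nat.mem_primeFactors.1 hl
      exact (Nat.Prime.coprime_iff_not_dvd hp).2
        (hmax l hl.1 (hl.2.1.trans (Dvd.intro_left p hmg.symm)))
    have h7 : p ^ e ∣ g := h6.dvd_of_dvd_mul_right h5
    apply hpe'
    rw [hmg, pow_succ, mul_comm (p ^ e) p]
    exact Nat.mul_dvd_mul_left p h7

/-- a rational number as a quotient -/
lemma rat_eq {ρ : ℚ} (hρ : 0 < ρ) {v m : ℕ} (h : ρ.den = 2 ^ v * m) :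
    ((ρ : ℝ)) = ((ρ.num.natAbs : ℕ) : ℝ) / (2 ^ v * (m : ℝ)) := by
  have h1 : (ρ : ℝ) = (ρ.num : ℝ) / (ρ.den : ℝ) := by exact_mod_cast (Rat.num_div_den ρ).symm
  have h2 : (ρ.num : ℝ) = ((ρ.num.natAbs : ℕ) : ℝ) := by
    rw [Nat.cast_natAbs, abs_of_nonneg (Rat.num_nonneg.2 hρ.le)]
  rw [h1, h2, h]; push_cast; rfl

/-- positive proportion of digit changes for the rational numbers which are not dyadic -/
lemma changes_rat {ρ : ℚ} (hρ : 0 < ρ) (hden : ¬ ∃ k : ℕ, ρ.den = 2 ^ k) :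
    ∃ c > (0 : ℝ), ∃ C : ℝ, ∀ n : ℕ, c * n - C ≤ (changes (ρ : ℝ) n : ℝ) := by
  obtain ⟨v, m, hm, hd⟩ := Nat.exists_eq_two_pow_mul_odd (n := ρ.den) ρ.den_nz
  have hm1 : m ≠ 1 := by rintro rfl; exact hden ⟨v, by simpa using hd⟩
  have hm0 : 0 < m := hm.pos
  have hcop : Nat.Coprime ρ.num.natAbs m := by
    have := ρ.reduced; rw [hd] at this; exact this.coprime_mul_left_right
  have hL : m ≤ 2 ^ m := Nat.lt_two_pow_self.le
  have hblock : ∀ s, 1 ≤ ∑ i ∈ Finset.range m,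
      (if Good m (ρ.num.natAbs * 2 ^ (s + i)) then 1 else 0) := by
    intro s
    have hnd : ¬ m ∣ ρ.num.natAbs * 2 ^ s := by
      intro h
      have h1 : Nat.Coprime m (2 ^ s) := Nat.Coprime.pow_right _ (Nat.coprime_two_right.2 hm)
      have h2 : m ∣ ρ.num.natAbs := h1.dvd_of_dvd_mul_right h
      have h3 : m ∣ 1 := by rw [← hcop]; exact Nat.dvd_gcd h2 (dvd_refl m)
      exact hm1 (Nat.dvd_one.1 h3)
    obtain ⟨i, hi, hG⟩ := exists_good hm hL _ hnd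
    rw [mul_assoc, ← pow_add] at hG
    calc 1 = (if Good m (ρ.num.natAbs * 2 ^ (s + i)) then 1 else 0) := by rw [if_pos hG]
      _ ≤ _ := Finset.single_le_sum (f := fun i => if Good m (ρ.num.natAbs * 2 ^ (s + i)) then 1 else 0)
          (fun _ _ => Nat.zero_le _) (Finset.mem_range.2 hi)
  have hm0' : (0 : ℝ) < m := by exact_mod_cast hm0
  refine ⟨1 / m, by positivity, (v + 1) / m + 1, fun n => ?_⟩
  have h1 := changes_ge_blocks hm0 (rat_eq hρ hd) hblock n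
  rw [mul_one] at h1
  have h2 : ((n - (v + 1) : ℕ) : ℝ) / m < (((n - (v + 1)) / m : ℕ) : ℝ) + 1 := by
    rw [div_lt_iff₀ hm0']
    have := Nat.lt_div_mul_add (a := n - (v + 1)) hm0
    have h3 : ((n - (v + 1) : ℕ) : ℝ) < (((n - (v + 1)) / m * m + m : ℕ) : ℝ) := by exact_mod_cast this
    push_cast at h3
    linarith
  have h3 : (n : ℝ) - (v + 1) ≤ ((n - (v + 1) : ℕ) : ℝ) := by
    have h4 : n ≤ (n - (v + 1)) + (v + 1) := by omega
    have : (n : ℝ) ≤ (((n - (v + 1)) + (v + 1) : ℕ) : ℝ) := by exact_mod_cast h4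
    push_cast at this
    linarith
  have h4 : (((n - (v + 1)) / m : ℕ) : ℝ) ≤ (changes (ρ : ℝ) n : ℝ) := by exact_mod_cast h1
  have h5 : ((n : ℝ) - (v + 1)) / m ≤ ((n - (v + 1) : ℕ) : ℝ) / m := by gcongr
  have e : 1 / (m : ℝ) * n - ((v + 1) / m + 1) = ((n : ℝ) - (v + 1)) / m - 1 := by ring
  rw [e]
  linarith

/-- one third of the digits change -/
lemma changes_third {ρ : ℚ} (hρ : 0 < ρ) {p : ℕ} (hp : p.Prime) (hp2 : p ≠ 2)
    (hpd : p ^ 2 ∣ ρ.den) (hmax : ∀ l : ℕ, l.Prime → l ∣ ρ.den → ¬ p ∣ l - 1)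
    (hW : ¬ p ^ 2 ∣ 2 ^ (p - 1) - 1) :
    ∃ C : ℝ, ∀ n : ℕ, (n : ℝ) / 3 - C ≤ (changes (ρ : ℝ) n : ℝ) := by
  obtain ⟨v, m, hm, hd⟩ := Nat.exists_eq_two_pow_mul_odd (n := ρ.den) ρ.den_nz
  have hcop2 : Nat.Coprime (p ^ 2) (2 ^ v) :=
    Nat.Coprime.pow _ _ ((Nat.coprime_primes hp Nat.prime_two).2 hp2)
  have hpm : p ^ 2 ∣ m := hcop2.dvd_of_dvd_mul_left (hd ▸ hpd)
  obtain ⟨g, T, hmg, hpg, hT1, hT2⟩ := exists_T hp hp2 hm hpm
    (fun l hl h => hmax l hl (hd ▸ (h.mul_left _))) hW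
  have hpodd : Odd p := hp.odd_of_ne_two hp2
  obtain ⟨h, hh⟩ := hpodd
  have hp3 : 3 ≤ p := by
    have := hp.two_le; omega
  have hh0 : 0 < h := by omega
  have hb : ¬ p ∣ ρ.num.natAbs := by
    intro hdv
    have h1 : p ∣ ρ.den := (dvd_pow_self p (by norm_num)).trans hpd
    have h2 : p ∣ 1 := by
      rw [← ρ.reduced]; exact Nat.dvd_gcd hdv h1
    exact hp.one_lt.ne' (Nat.dvd_one.1 h2)
  have hT0 : 0 < T := by
    rcases Nat.eq_zero_or_pos T with rfl | h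
    · simp at hT2
    · exact h
  have hblock := fun s => block_sum hp hh hh0 (hmg ▸ hm) hpg hT1 hT2 hb s
  have hm0 : 0 < m := hm.pos
  have hρe := rat_eq hρ hd
  rw [hmg] at hρe hm0
  have hP0 : 0 < p * T := Nat.mul_pos (by omega) hT0
  have hP0' : (0 : ℝ) < ((p * T : ℕ) : ℝ) := by exact_mod_cast hP0
  refine ⟨(v + 1) + T * h, fun n => ?_⟩
  have h1 := changes_ge_blocks hm0 hρe hblock n
  have h1' : ((((n - (v + 1)) / (p * T) : ℕ) : ℝ)) * (T * h) ≤ (changes (ρ : ℝ) n : ℝ) := by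
    exact_mod_cast h1
  have h2 : ((n - (v + 1) : ℕ) : ℝ) / ((p * T : ℕ) : ℝ) < (((n - (v + 1)) / (p * T) : ℕ) : ℝ) + 1 := by
    rw [div_lt_iff₀ hP0']
    have := Nat.lt_div_mul_add (a := n - (v + 1)) hP0
    have h3 : ((n - (v + 1) : ℕ) : ℝ) < (((n - (v + 1)) / (p * T) * (p * T) + p * T : ℕ) : ℝ) := by
      exact_mod_cast this
    push_cast at h3
    push_cast
    linarith
  have h3 : (n : ℝ) - (v + 1) ≤ ((n - (v + 1) : ℕ) : ℝ) := by
    have h4 : n ≤ (n - (v + 1)) + (v + 1) := by omega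
    have : (n : ℝ) ≤ (((n - (v + 1)) + (v + 1) : ℕ) : ℝ) := by exact_mod_cast h4
    push_cast at this
    linarith
  have hTh : (0 : ℝ) ≤ (T : ℝ) * h := by positivity
  have hT0' : (0 : ℝ) < T := by exact_mod_cast hT0
  have hp0' : (0 : ℝ) < p := by exact_mod_cast (by omega : 0 < p)
  have h6 : (((n - (v + 1) : ℕ) : ℝ) / ((p * T : ℕ) : ℝ) - 1) * (T * h) ≤ (changes (ρ : ℝ) n : ℝ) :=
    le_trans (mul_le_mul_of_nonneg_right (by linarith) hTh) h1'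
  have h7 : ((n - (v + 1) : ℕ) : ℝ) / ((p * T : ℕ) : ℝ) * (T * h) =
      ((n - (v + 1) : ℕ) : ℝ) * (h / p) := by
    push_cast; field_simp
  have h8 : (1 : ℝ) / 3 ≤ h / p := by
    rw [div_le_div_iff₀ (by norm_num) hp0']
    have : (p : ℝ) = 2 * h + 1 := by exact_mod_cast hh
    have h9 : (1 : ℝ) ≤ h := by exact_mod_cast hh0
    linarith
  have h10 : ((n - (v + 1) : ℕ) : ℝ) * (1 / 3) ≤ ((n - (v + 1) : ℕ) : ℝ) * (h / p) :=
    mul_le_mul_of_nonneg_left h8 (Nat.cast_nonneg _)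
  have h11 : (0 : ℝ) ≤ (v : ℝ) := Nat.cast_nonneg _
  nlinarith

lemma sqrt_arg {K C ε : ℝ} (hK : 0 ≤ K) (hC : 0 ≤ C) (hε : 0 < ε) :
    ∃ n₀ : ℕ, ∀ n ≥ n₀, ∀ w : ℝ, 0 ≤ w → (n : ℝ) / 3 - C ≤ (w + K) ^ 2 →
      (1 / Real.sqrt 3 - ε) * Real.sqrt n ≤ w := by
  set a := 1 / Real.sqrt 3 - ε with ha
  by_cases ha0 : a ≤ 0
  · refine ⟨0, fun n _ w hw _ => ?_⟩
    have h1 : a * Real.sqrt n ≤ 0 := mul_nonpos_of_nonpos_of_nonneg ha0 (Real.sqrt_nonneg _)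
    linarith
  · push Not at ha0
    have h3 : (1 / Real.sqrt 3) ^ 2 = 1 / 3 := by
      rw [div_pow, Real.sq_sqrt (by norm_num)]; norm_num
    have ha1 : a < 1 / Real.sqrt 3 := by rw [ha]; linarith
    have ha2 : a ^ 2 < 1 / 3 := by
      rw [← h3]; exact pow_lt_pow_left₀ ha1 ha0.le (by norm_num)
    set δ := 1 / 3 - a ^ 2 with hδ
    have hδ0 : 0 < δ := by rw [hδ]; linarith
    have ha3 : a ≤ 1 := by nlinarith
    obtain ⟨N, hN⟩ := exists_nat_gt ((2 * K + K ^ 2 + C) / δ + 1)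
    refine ⟨N ^ 2 + 1, fun n hn w hw h => ?_⟩
    by_contra hcon
    push Not at hcon
    set s := Real.sqrt n with hs
    have hs2 : s ^ 2 = n := Real.sq_sqrt (Nat.cast_nonneg _)
    have hsN : (N : ℝ) ≤ s := by
      apply Real.le_sqrt_of_sq_le
      have : N ^ 2 ≤ n := by omega
      exact_mod_cast this
    have hQ0 : 0 ≤ (2 * K + K ^ 2 + C) / δ := by positivity
    have hs1 : 1 ≤ s := by linarith
    have h5 : (w + K) ^ 2 < (a * s + K) ^ 2 := by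
      apply pow_lt_pow_left₀ (by linarith) (by linarith) (by norm_num)
    have h6 : 2 * K + K ^ 2 + C ≤ δ * s := by
      have : (2 * K + K ^ 2 + C) / δ < s := by linarith
      rw [div_lt_iff₀ hδ0] at this
      linarith
    have h7 : (2 * K + K ^ 2 + C) * s ≤ δ * s * s := mul_le_mul_of_nonneg_right h6 (by linarith)
    have h8 : K ^ 2 + C ≤ (K ^ 2 + C) * s := le_mul_of_one_le_right (by positivity) hs1
    have h9 : a * (K * s) ≤ 1 * (K * s) := mul_le_mul_of_nonneg_right ha3 (by positivity)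
    nlinarith

theorem changes_product {x y : ℝ} (hx : 0 ≤ x) (hy : 0 ≤ y) (n : ℕ) :
    changes (x * y) n ≤
      2 * ((least x n + ⌊x⌋₊ + 2) * (least y n + ⌊y⌋₊ + 2)) + ⌈x + y⌉₊ := by
  have h := changes_mul_le hx hy (Nat.le_ceil (x + y)) n (W_pre' hx n) (W_pre' hy n)
  have e1 : ⌊x⌋₊ + 2 + least x n = least x n + ⌊x⌋₊ + 2 := by ring
  have e2 : ⌊y⌋₊ + 2 + least y n = least y n + ⌊y⌋₊ + 2 := by ring
  rwa [e1, e2] at h

theorem root_uniform {ρ : ℚ} (hρ : 0 < ρ) {p : ℕ} (hp : p.Prime) (hp2 : p ≠ 2)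
    (hpd : p ^ 2 ∣ ρ.den) (hmax : ∀ l : ℕ, l.Prime → l ∣ ρ.den → ¬ p ∣ l - 1)
    (hW : ¬ p ^ 2 ∣ 2 ^ (p - 1) - 1) {x : ℝ} (hx : 0 ≤ x) (hxρ : x ^ 2 = ρ) {ε : ℝ} (hε : 0 < ε) :
    ∃ n₀ : ℕ, ∀ n ≥ n₀, (1 / Real.sqrt 3 - ε) * Real.sqrt n ≤ least x n := by
  obtain ⟨C, hC⟩ := changes_third hρ hp hp2 hpd hmax hW
  have hC0 : 0 ≤ C := by
    have := hC 0
    simp [changes] at this
    linarith
  obtain ⟨n₀, hn₀⟩ := sqrt_arg (K := ⌊x⌋₊ + 3) (C := C + ⌈x + x⌉₊) (by positivity) (by positivity) hε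
  refine ⟨n₀, fun n hn => hn₀ n hn _ (Nat.cast_nonneg _) ?_⟩
  have h1 := changes_sq_le hx (Nat.le_ceil (x + x)) n (W_pre' hx n)
  rw [← sq, hxρ] at h1
  have h2 := hC n
  have h3 : (changes (ρ : ℝ) n : ℝ) ≤
      (⌊x⌋₊ + 2 + least x n) * (⌊x⌋₊ + 2 + least x n + 1) + ⌈x + x⌉₊ := by exact_mod_cast h1
  have h4 : (0 : ℝ) ≤ (⌊x⌋₊ : ℝ) := Nat.cast_nonneg _
  have h5 : (0 : ℝ) ≤ (least x n : ℝ) := Nat.cast_nonneg _
  nlinarith

end Pool.Agent.H78.SQ
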