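import Pool.Agent.H78.SQ.Final

set_option autoImplicit false

/-!
# The theorems on the rational multiples of the square root of two
-/

namespace Pool.Agent.H78.SQ

lemma sqrt_arg' {a₀ K C ε : ℝ} (ha₁ : a₀ ≤ 1) (hK : 0 ≤ K) (hC : 0 ≤ C)
    (hε : 0 < ε) :
    ∃ n₀ : ℕ, ∀ n ≥ n₀, ∀ w : ℝ, 0 ≤ w → (n : ℝ) * a₀ ^ 2 - C ≤ (w + K) ^ 2 →
      (a₀ - ε) * Real.sqrt n ≤ w := by
  set a := a₀ - ε with ha
  by_cases ha0 : a ≤ 0
  · refine ⟨0, fun n _ w hw _ => ?_⟩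
    have h1 : a * Real.sqrt n ≤ 0 := mul_nonpos_of_nonpos_of_nonneg ha0 (Real.sqrt_nonneg _)
    linarith
  · push Not at ha0
    have ha1 : a < a₀ := by rw [ha]; linarith
    have ha2 : a ^ 2 < a₀ ^ 2 := pow_lt_pow_left₀ ha1 ha0.le (by norm_num)
    set δ := a₀ ^ 2 - a ^ 2 with hδ
    have hδ0 : 0 < δ := by rw [hδ]; linarith
    have ha3 : a ≤ 1 := by linarith
    obtain ⟨N, hN⟩ := exists_nat_gt ((2 * K + K ^ 2 + C) / δ + 1)
    refine ⟨N ^ 2 + 1, fun n hn w hw h => ?_⟩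
    by_contra hcon
    push Not at hcon
    set s := Real.sqrt n with hs
    have hs2 : s ^ 2 = n := Real.sq_sqrt (Nat.cast_nonneg _)
    have hsN : (N : ℝ) ≤ s := by
      apply Real.le_sqrt_of_sq_le
      have : N ^ 2 ≤ n := by omega
      exact_mod_cast this
    have hQ0 : 0 ≤ (2 * K + K ^ 2 + C) / δ := by positivity
    have hs1 : 1 ≤ s := by linarith
    have h5 : (w + K) ^ 2 < (a * s + K) ^ 2 := by
      apply pow_lt_pow_left₀ (by linarith) (by linarith) (by norm_num)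
    have h6 : 2 * K + K ^ 2 + C ≤ δ * s := by
      have : (2 * K + K ^ 2 + C) / δ < s := by linarith
      rw [div_lt_iff₀ hδ0] at this
      linarith
    have h7 : (2 * K + K ^ 2 + C) * s ≤ δ * s * s := mul_le_mul_of_nonneg_right h6 (by linarith)
    have h8 : K ^ 2 + C ≤ (K ^ 2 + C) * s := le_mul_of_one_le_right (by positivity) hs1
    have h9 : a * (K * s) ≤ 1 * (K * s) := mul_le_mul_of_nonneg_right ha3 (by positivity)
    rw [← hs2] at h
    nlinarith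

/-- digit changes of the rational numbers which are not dyadic -/
lemma changes_log {ρ : ℚ} (hρ : 0 < ρ) {v m L : ℕ} (hm : Odd m) (hm1 : m ≠ 1)
    (hd : ρ.den = 2 ^ v * m) (hL : m ≤ 2 ^ L) :
    ∃ C : ℝ, ∀ n : ℕ, (n : ℝ) / L - C ≤ (changes (ρ : ℝ) n : ℝ) := by
  have hm0 : 0 < m := hm.pos
  have hL0 : 0 < L := by
    rcases Nat.eq_zero_or_pos L with rfl | h
    · rw [pow_zero] at hL; omega
    · exact h
  have hcop : Nat.Coprime ρ.num.natAbs m := by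
    have := ρ.reduced; rw [hd] at this; exact this.coprime_mul_left_right
  have hblock : ∀ s, 1 ≤ ∑ i ∈ Finset.range L,
      (if Good m (ρ.num.natAbs * 2 ^ (s + i)) then 1 else 0) := by
    intro s
    have hnd : ¬ m ∣ ρ.num.natAbs * 2 ^ s := by
      intro h
      have h1 : Nat.Coprime m (2 ^ s) := Nat.Coprime.pow_right _ (Nat.coprime_two_right.2 hm)
      have h2 : m ∣ ρ.num.natAbs := h1.dvd_of_dvd_mul_right h
      have h3 : m ∣ 1 := by rw [← hcop]; exact Nat.dvd_gcd h2 (dvd_refl m)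
      exact hm1 (Nat.dvd_one.1 h3)
    obtain ⟨i, hi, hG⟩ := exists_good hm hL _ hnd
    rw [mul_assoc, ← pow_add] at hG
    calc 1 = (if Good m (ρ.num.natAbs * 2 ^ (s + i)) then 1 else 0) := by rw [if_pos hG]
      _ ≤ _ := Finset.single_le_sum (f := fun i => if Good m (ρ.num.natAbs * 2 ^ (s + i)) then 1 else 0)
          (fun _ _ => Nat.zero_le _) (Finset.mem_range.2 hi)
  have hL0' : (0 : ℝ) < L := by exact_mod_cast hL0
  refine ⟨(v + 1) / L + 1, fun n => ?_⟩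
  have h1 := changes_ge_blocks hm0 (rat_eq hρ hd) hblock n
  rw [mul_one] at h1
  have h2 : ((n - (v + 1) : ℕ) : ℝ) / L < (((n - (v + 1)) / L : ℕ) : ℝ) + 1 := by
    rw [div_lt_iff₀ hL0']
    have := Nat.lt_div_mul_add (a := n - (v + 1)) hL0
    have h3 : ((n - (v + 1) : ℕ) : ℝ) < (((n - (v + 1)) / L * L + L : ℕ) : ℝ) := by
      exact_mod_cast this
    push_cast at h3
    linarith
  have h3 : (n : ℝ) - (v + 1) ≤ ((n - (v + 1) : ℕ) : ℝ) := by
    have h4 : n ≤ (n - (v + 1)) + (v + 1) := by omega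
    have : (n : ℝ) ≤ (((n - (v + 1)) + (v + 1) : ℕ) : ℝ) := by exact_mod_cast h4
    push_cast at this
    linarith
  have h4 : (((n - (v + 1)) / L : ℕ) : ℝ) ≤ (changes (ρ : ℝ) n : ℝ) := by exact_mod_cast h1
  have h5 : ((n : ℝ) - (v + 1)) / L ≤ ((n - (v + 1) : ℕ) : ℝ) / L := by gcongr
  have e : (n : ℝ) / L - ((v + 1) / L + 1) = ((n : ℝ) - (v + 1)) / L - 1 := by ring
  rw [e]
  linarith

/-- from digit changes of `x ^ 2` to digit counts of `x` -/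
lemma root_of_changes {ρ x a₀ C ε : ℝ} (hx : 0 ≤ x) (hxρ : x ^ 2 = ρ) (ha₁ : a₀ ≤ 1)
    (hC : ∀ n : ℕ, (n : ℝ) * a₀ ^ 2 - C ≤ (changes ρ n : ℝ)) (hε : 0 < ε) :
    ∃ n₀ : ℕ, ∀ n ≥ n₀, (a₀ - ε) * Real.sqrt n ≤ least x n := by
  have hC0 : 0 ≤ C := by
    have := hC 0
    simp [changes] at this
    linarith
  obtain ⟨n₀, hn₀⟩ := sqrt_arg' (K := ⌊x⌋₊ + 3) (C := C + ⌈x + x⌉₊) ha₁ (by positivity)
    (by positivity) hε
  refine ⟨n₀, fun n hn => hn₀ n hn _ (Nat.cast_nonneg _) ?_⟩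
  have h1 := changes_sq_le hx (Nat.le_ceil (x + x)) n (W_pre' hx n)
  rw [← sq, hxρ] at h1
  have h2 := hC n
  have h3 : (changes ρ n : ℝ) ≤
      (⌊x⌋₊ + 2 + least x n) * (⌊x⌋₊ + 2 + least x n + 1) + ⌈x + x⌉₊ := by exact_mod_cast h1
  have h4 : (0 : ℝ) ≤ (⌊x⌋₊ : ℝ) := Nat.cast_nonneg _
  have h5 : (0 : ℝ) ≤ (least x n : ℝ) := Nat.cast_nonneg _
  nlinarith

/-- the denominator of `2 r ^ 2` -/
lemma den_two_sq {r : ℚ} {u q : ℕ} (hq : Odd q) (hd : r.den = 2 ^ u * q) :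
    ∃ v : ℕ, (2 * r ^ 2).den = 2 ^ v * q ^ 2 := by
  have hnum : Nat.Coprime r.num.natAbs q := by
    have := r.reduced; rw [hd] at this; exact this.coprime_mul_left_right
  have hq0 : 0 < q := hq.pos
  -- `2 r ^ 2 = (2 num ^ 2) / (2 ^ (2 u) q ^ 2)`
  have hr2 : (2 * r ^ 2 : ℚ) = ((2 * r.num ^ 2 : ℤ) : ℚ) / ((2 ^ (2 * u) * q ^ 2 : ℕ) : ℚ) := by
    conv_lhs => rw [← Rat.num_div_den r]
    rw [hd]; push_cast
    rw [div_pow, mul_pow, ← pow_mul, mul_comm u 2]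
    ring
  have hdvd : (2 * r ^ 2).den ∣ 2 ^ (2 * u) * q ^ 2 := by
    rw [hr2]
    have := Rat.den_dvd (2 * r.num ^ 2) (2 ^ (2 * u) * q ^ 2 : ℕ)
    have h1 : ((((2 * r.num ^ 2 : ℤ) : ℚ) / ((2 ^ (2 * u) * q ^ 2 : ℕ) : ℚ)).den : ℤ) ∣
        ((2 ^ (2 * u) * q ^ 2 : ℕ) : ℤ) := by
      simpa [Rat.divInt_eq_div] using this
    exact_mod_cast h1
  have hdvd2 : q ^ 2 ∣ (2 * r ^ 2).den := by
    -- `num' * (2 ^ (2 u) q ^ 2) = 2 num ^ 2 * den'`
    have h1 : ((2 * r ^ 2).num : ℚ) * ((2 ^ (2 * u) * q ^ 2 : ℕ) : ℚ) =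
        ((2 * r.num ^ 2 : ℤ) : ℚ) * ((2 * r ^ 2).den : ℚ) := by
      have h2 : (2 * r ^ 2 : ℚ) = ((2 * r ^ 2).num : ℚ) / ((2 * r ^ 2).den : ℚ) :=
        (Rat.num_div_den _).symm
      have h3 : ((2 * r ^ 2).den : ℚ) ≠ 0 := by exact_mod_cast (2 * r ^ 2).den_nz
      have h4 : ((2 ^ (2 * u) * q ^ 2 : ℕ) : ℚ) ≠ 0 := by
        have : 2 ^ (2 * u) * q ^ 2 ≠ 0 := by positivity
        exact_mod_cast this
      have h5 := hr2.symm.trans h2
      rw [div_eq_div_iff h4 h3] at h5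
      linarith
    have h2 : (2 * r ^ 2).num * ((2 ^ (2 * u) * q ^ 2 : ℕ) : ℤ) =
        (2 * r.num ^ 2) * ((2 * r ^ 2).den : ℤ) := by exact_mod_cast h1
    have h3 := congrArg Int.natAbs h2
    rw [Int.natAbs_mul, Int.natAbs_mul, Int.natAbs_natCast, Int.natAbs_natCast, Int.natAbs_mul,
      Int.natAbs_pow] at h3
    have h4 : q ^ 2 ∣ (Int.natAbs 2 * r.num.natAbs ^ 2) * (2 * r ^ 2).den := by
      rw [← h3, ← mul_assoc]; exact Dvd.intro_left _ rfl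
    have h5 : Nat.Coprime (q ^ 2) (Int.natAbs 2 * r.num.natAbs ^ 2) := by
      apply Nat.Coprime.mul_right
      · apply Nat.Coprime.pow_left
        exact Nat.coprime_two_right.2 hq
      · exact Nat.Coprime.pow _ _ hnum.symm
    exact h5.dvd_of_dvd_mul_left h4
  obtain ⟨t, ht⟩ := hdvd2
  have h6 : t ∣ 2 ^ (2 * u) := by
    rw [ht, mul_comm] at hdvd
    exact Nat.dvd_of_mul_dvd_mul_right (by positivity) hdvd
  obtain ⟨v, _, hv⟩ := (Nat.dvd_prime_pow Nat.prime_two).1 h6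
  exact ⟨v, by rw [ht, hv, mul_comm]⟩

lemma sqrt_two_sq (r : ℚ) : ((r : ℝ) * Real.sqrt 2) ^ 2 = ((2 * r ^ 2 : ℚ) : ℝ) := by
  rw [mul_pow, Real.sq_sqrt (by norm_num)]; push_cast; ring

theorem multiples_uniform {r : ℚ} (hr : 0 < r) {p : ℕ} (hp : p.Prime) (hp2 : p ≠ 2)
    (hpd : p ∣ r.den) (hmax : ∀ l : ℕ, l.Prime → l ∣ r.den → ¬ p ∣ l - 1)
    (hW : ¬ p ^ 2 ∣ 2 ^ (p - 1) - 1) {ε : ℝ} (hε : 0 < ε) :
    ∃ n₀ : ℕ, ∀ n ≥ n₀, (1 / Real.sqrt 3 - ε) * Real.sqrt n ≤ least (r * Real.sqrt 2) n := by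
  obtain ⟨u, q, hq, hd⟩ := Nat.exists_eq_two_pow_mul_odd (n := r.den) r.den_nz
  obtain ⟨v, hv⟩ := den_two_sq hq hd
  have hcop : Nat.Coprime p (2 ^ u) :=
    Nat.Coprime.pow_right _ ((Nat.coprime_primes hp Nat.prime_two).2 hp2)
  have hpq : p ∣ q := hcop.dvd_of_dvd_mul_left (hd ▸ hpd)
  refine root_uniform (ρ := 2 * r ^ 2) (by positivity) hp hp2 ?_ ?_ hW (by positivity)
    (sqrt_two_sq r) hε
  · rw [hv]; exact (pow_dvd_pow_of_dvd hpq 2).mul_left _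
  · intro l hl hld
    rw [hv] at hld
    rcases (Nat.Prime.dvd_mul hl).1 hld with h | h
    · have h2 := (Nat.prime_dvd_prime_iff_eq hl Nat.prime_two).1 (hl.dvd_of_dvd_pow h)
      rw [h2]
      intro h3
      exact hp.one_lt.ne' (Nat.dvd_one.1 h3)
    · exact hmax l hl (hd ▸ ((hl.dvd_of_dvd_pow h).mul_left _))

theorem multiples_log {r : ℚ} (hr : 0 < r) {u q L : ℕ} (hq : Odd q) (hq1 : q ≠ 1)
    (hd : r.den = 2 ^ u * q) (hL : q ^ 2 ≤ 2 ^ L) {ε : ℝ} (hε : 0 < ε) :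
    ∃ n₀ : ℕ, ∀ n ≥ n₀, (1 / Real.sqrt L - ε) * Real.sqrt n ≤ least (r * Real.sqrt 2) n := by
  obtain ⟨v, hv⟩ := den_two_sq hq hd
  have hL0 : 0 < L := by
    rcases Nat.eq_zero_or_pos L with rfl | h
    · rw [pow_zero] at hL
      have := hq.pos
      nlinarith [Nat.lt_of_le_of_ne (Nat.one_le_iff_ne_zero.2 this.ne') (Ne.symm hq1)]
    · exact h
  obtain ⟨C, hC⟩ := changes_log (ρ := 2 * r ^ 2) (by positivity) (hq.pow (n := 2))
    (by intro h; exact hq1 (by simpa using h)) hv hL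
  have hL1 : (1 : ℝ) ≤ L := by exact_mod_cast hL0
  have h1 : (1 / Real.sqrt L) ^ 2 = 1 / (L : ℝ) := by
    rw [div_pow, Real.sq_sqrt (by positivity), one_pow]
  refine root_of_changes (C := C) (by positivity) (sqrt_two_sq r) ?_ ?_ hε
  · rw [div_le_one (by positivity)]
    exact Real.one_le_sqrt.2 hL1
  · intro n
    rw [h1]
    have := hC n
    have e : (n : ℝ) * (1 / L) = n / L := by ring
    rw [e]; exact this

/-- `√2` and `√2 / 3` -/
theorem sqrt_two_third (n : ℕ) :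
    n ≤ 2 * ((least (Real.sqrt 2) n + 2) * (least (Real.sqrt 2 / 3) n + 2)) + 3 := by
  have h2 : Real.sqrt 2 * Real.sqrt 2 = 2 := Real.mul_self_sqrt (by norm_num)
  have hs0 : 0 ≤ Real.sqrt 2 := Real.sqrt_nonneg _
  have hs1 : 1 ≤ Real.sqrt 2 := by nlinarith
  have hs2 : Real.sqrt 2 ≤ 3 / 2 := by nlinarith
  have hf1 : ⌊Real.sqrt 2⌋ = 1 := by
    rw [Int.floor_eq_iff]; push_cast; constructor <;> linarith
  have hf2 : ⌊Real.sqrt 2 / 3⌋ = 0 := by
    rw [Int.floor_eq_iff]; push_cast; constructor <;> linarith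
  have w1 : W (0 + 2 + least (Real.sqrt 2) n) (pre (Real.sqrt 2) n) := by
    refine W_pre ?_ ?_ ?_ n <;> rw [hf1]
    · exact W_mono (by simpa using W_one_pow 0) (by omega : 1 ≤ 0 + 2)
    · exact W_mono (by simpa using W_one_pow 1) (by omega : 1 ≤ 0 + 1)
    · exact W_mono (by simpa using W_one_pow 1) (by omega : 1 ≤ 0 + 1)
  have w2 : W (0 + 2 + least (Real.sqrt 2 / 3) n) (pre (Real.sqrt 2 / 3) n) := by
    refine W_pre ?_ ?_ ?_ n <;> rw [hf2]
    · exact W_mono W_zero (by omega)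
    · exact W_mono (by simpa using W_one_pow 0) (by omega : 1 ≤ 0 + 1)
    · exact W_mono (by simpa using W_zero) (by omega)
  have h3 := changes_mul_le (s := 2) hs0 (by positivity : 0 ≤ Real.sqrt 2 / 3)
    (by push_cast; linarith) n w1 w2
  have e : Real.sqrt 2 * (Real.sqrt 2 / 3) = ((2 : ℕ) : ℝ) / (2 ^ 0 * ((3 : ℕ) : ℝ)) := by
    push_cast; rw [← mul_div_assoc, h2]; norm_num
  have h4 : ∀ s, 1 ≤ ∑ i ∈ Finset.range 1, (if Good 3 (2 * 2 ^ (s + i)) then 1 else 0) := by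
    intro s
    simp only [Finset.range_one, Finset.sum_singleton, add_zero]
    have h5 : (2 * 2 ^ s) % 3 ≠ 0 := by
      intro h
      have := Nat.dvd_of_mod_eq_zero h
      rw [← pow_succ'] at this
      have := Nat.prime_three.dvd_of_dvd_pow this
      omega
    have h6 : Good 3 (2 * 2 ^ s) := by
      unfold Good
      have := Nat.mod_lt (2 * 2 ^ s) (by norm_num : 0 < 3)
      omega
    rw [if_pos h6]
  have h5 := changes_ge_blocks (A := 2) (v := 0) (m := 3) (by norm_num) e h4 n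
  rw [Nat.div_one, mul_one] at h5
  have e1 : 0 + 2 + least (Real.sqrt 2) n = least (Real.sqrt 2) n + 2 := by ring
  have e2 : 0 + 2 + least (Real.sqrt 2 / 3) n = least (Real.sqrt 2 / 3) n + 2 := by ring
  rw [e1, e2] at h3
  omega

theorem product_rational {x y : ℝ} (hx : 0 < x) (hy : 0 < y) {ρ : ℚ} (hρ : x * y = ρ)
    (hden : ¬ ∃ k : ℕ, ρ.den = 2 ^ k) :
    ∃ c > (0 : ℝ), ∃ C : ℝ, 0 ≤ C ∧ ∀ n : ℕ, c * n ≤ (least x n + C) * (least y n + C) := by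
  have hρ0 : 0 < ρ := by
    have : (0 : ℝ) < ρ := by rw [← hρ]; positivity
    exact_mod_cast this
  obtain ⟨c, hc, C, hC⟩ := changes_rat hρ0 hden
  have hC0 : 0 ≤ C := by
    have := hC 0
    simp [changes] at this
    linarith
  set S : ℝ := ⌊x⌋₊ + ⌊y⌋₊ + 2 + ⌈x + y⌉₊ + C with hS
  refine ⟨c / 2, by positivity, S, by positivity, fun n => ?_⟩
  have h1 := changes_product hx.le hy.le n
  have h2 := hC n
  rw [← hρ] at h2
  have h3 : (changes (x * y) n : ℝ) ≤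
      2 * ((least x n + ⌊x⌋₊ + 2) * (least y n + ⌊y⌋₊ + 2)) + ⌈x + y⌉₊ := by exact_mod_cast h1
  have hx0 : (0 : ℝ) ≤ (⌊x⌋₊ : ℝ) := Nat.cast_nonneg _
  have hy0 : (0 : ℝ) ≤ (⌊y⌋₊ : ℝ) := Nat.cast_nonneg _
  have hz0 : (0 : ℝ) ≤ (⌈x + y⌉₊ : ℝ) := Nat.cast_nonneg _
  have hl1 : (0 : ℝ) ≤ (least x n : ℝ) := Nat.cast_nonneg _
  have hl2 : (0 : ℝ) ≤ (least y n : ℝ) := Nat.cast_nonneg _
  set B : ℝ := ⌊x⌋₊ + ⌊y⌋₊ + 2 with hB
  have h4 : ((least x n : ℝ) + ⌊x⌋₊ + 2) * (least y n + ⌊y⌋₊ + 2) ≤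
      (least x n + B) * (least y n + B) := by
    apply mul_le_mul <;> first | (rw [hB]; linarith) | positivity
  have h5 : (least x n + B) * (least y n + B) + (⌈x + y⌉₊ + C) ≤
      (least x n + S) * (least y n + S) := by
    have e : S = B + (⌈x + y⌉₊ + C) := by rw [hS, hB]; ring
    have hB2 : 2 ≤ B := by rw [hB]; linarith
    set D : ℝ := ⌈x + y⌉₊ + C with hD
    have hD0 : 0 ≤ D := by rw [hD]; linarith
    rw [e]
    nlinarith [mul_nonneg hl1 hD0, mul_nonneg hl2 hD0, mul_nonneg hD0 hD0]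
  linarith

/-- ones of `x / q` come from prefixes of `x` not divisible by `q` -/
lemma ones_div_le {x : ℝ} {q : ℕ} (hq : 1 < q) (n : ℕ) :
    ones (x / q) n ≤ {k ∈ Finset.range n | ¬ (q : ℤ) ∣ ⌊x * 2 ^ k⌋}.card := by
  unfold ones
  apply Finset.card_le_card_of_injOn (fun k => k - 1)
  · intro k hk
    have hk := Finset.mem_filter.1 (Finset.mem_coe.1 hk)
    obtain ⟨h1, h2⟩ := hk
    have h1 := Finset.mem_Icc.1 h1
    obtain ⟨j, rfl⟩ : ∃ j, k = j + 1 := ⟨k - 1, by omega⟩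
    rw [Finset.mem_coe, Finset.mem_filter]
    refine ⟨Finset.mem_range.2 (by simp; omega), ?_⟩
    simp only [Nat.add_sub_cancel]
    rintro ⟨Y, hY⟩
    have hq' : (0 : ℝ) < q := by exact_mod_cast (by omega : 0 < q)
    have hq2 : (2 : ℝ) ≤ q := by exact_mod_cast hq
    have h3 : (⌊x * 2 ^ j⌋ : ℝ) = q * Y := by exact_mod_cast hY
    have h4 := Int.floor_le (x * 2 ^ j)
    have h5 := Int.lt_floor_add_one (x * 2 ^ j)
    rw [h3] at h4 h5
    have h6 : ⌊x / q * 2 ^ (j + 1)⌋ = 2 * Y := by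
      rw [Int.floor_eq_iff]
      have e : x / q * 2 ^ (j + 1) = 2 * (x * 2 ^ j) / q := by rw [pow_succ]; ring
      rw [e]
      push_cast
      constructor
      · rw [le_div_iff₀ hq']; nlinarith
      · rw [div_lt_iff₀ hq']; nlinarith
    unfold bit at h2
    rw [h6] at h2
    omega
  · intro a ha b hb hab
    have ha := (Finset.mem_Icc.1 (Finset.mem_filter.1 (Finset.mem_coe.1 ha)).1)
    have hb := (Finset.mem_Icc.1 (Finset.mem_filter.1 (Finset.mem_coe.1 hb)).1)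
    simp only at hab
    omega

/-- zeros of `x / q` come from prefixes of `x` not congruent to `-1` modulo `q` -/
lemma zeros_div_le {x : ℝ} {q : ℕ} (hq : 1 < q) (n : ℕ) :
    zeros (x / q) n ≤ {k ∈ Finset.range n | ¬ (q : ℤ) ∣ ⌊x * 2 ^ k⌋ + 1}.card := by
  unfold zeros
  apply Finset.card_le_card_of_injOn (fun k => k - 1)
  · intro k hk
    have hk := Finset.mem_filter.1 (Finset.mem_coe.1 hk)
    obtain ⟨h1, h2⟩ := hk
    have h1 := Finset.mem_Icc.1 h1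
    obtain ⟨j, rfl⟩ : ∃ j, k = j + 1 := ⟨k - 1, by omega⟩
    rw [Finset.mem_coe, Finset.mem_filter]
    refine ⟨Finset.mem_range.2 (by simp; omega), ?_⟩
    simp only [Nat.add_sub_cancel]
    rintro ⟨Y, hY⟩
    have hq' : (0 : ℝ) < q := by exact_mod_cast (by omega : 0 < q)
    have hq2 : (2 : ℝ) ≤ q := by exact_mod_cast hq
    have h3 : (⌊x * 2 ^ j⌋ : ℝ) + 1 = q * Y := by exact_mod_cast hY
    have h4 := Int.floor_le (x * 2 ^ j)
    have h5 := Int.lt_floor_add_one (x * 2 ^ j)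
    rw [h3] at h5
    have h4' : (q : ℝ) * Y - 1 ≤ x * 2 ^ j := by linarith
    have h6 : ⌊x / q * 2 ^ (j + 1)⌋ = 2 * Y - 1 := by
      rw [Int.floor_eq_iff]
      have e : x / q * 2 ^ (j + 1) = 2 * (x * 2 ^ j) / q := by rw [pow_succ]; ring
      rw [e]
      push_cast
      constructor
      · rw [le_div_iff₀ hq']; nlinarith
      · rw [div_lt_iff₀ hq']; nlinarith
    unfold bit at h2
    rw [h6] at h2
    omega
  · intro a ha b hb hab
    have ha := (Finset.mem_Icc.1 (Finset.mem_filter.1 (Finset.mem_coe.1 ha)).1)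
    have hb := (Finset.mem_Icc.1 (Finset.mem_filter.1 (Finset.mem_coe.1 hb)).1)
    simp only at hab
    omega

/-- divisibility of the prefixes of `√2` -/
theorem prefixes {q : ℕ} (hq : Odd q) (hq1 : q ≠ 1) :
    ∃ c > (0 : ℝ), ∃ C : ℝ, ∀ n : ℕ,
      c * n ≤ (least (Real.sqrt 2) n + C) *
        (({k ∈ Finset.range n | ¬ (q : ℤ) ∣ ⌊Real.sqrt 2 * 2 ^ k⌋}.card : ℝ) + C) ∧
      c * n ≤ (least (Real.sqrt 2) n + C) *
        (({k ∈ Finset.range n | ¬ (q : ℤ) ∣ ⌊Real.sqrt 2 * 2 ^ k⌋ + 1}.card : ℝ) + C) := by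
  have hq2 : 1 < q := by
    have := hq.pos
    omega
  have hq' : (0 : ℝ) < q := by exact_mod_cast hq.pos
  have h2 : Real.sqrt 2 * Real.sqrt 2 = 2 := Real.mul_self_sqrt (by norm_num)
  have hcop : Nat.Coprime 2 q := Nat.coprime_two_left.2 hq
  have hden : ((2 : ℚ) / q).den = q := by
    have h5 := Rat.den_div_eq_of_coprime (a := 2) (b := (q : ℤ)) (by exact_mod_cast hq.pos)
      (by simpa using hcop)
    have h6 : (((2 : ℤ) : ℚ) / ((q : ℤ) : ℚ)) = 2 / q := by push_cast; rfl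
    rw [h6] at h5
    exact_mod_cast h5
  obtain ⟨c, hc, C, hC0, hC⟩ := product_rational (x := Real.sqrt 2) (y := Real.sqrt 2 / q)
    (ρ := 2 / q) (by positivity) (by positivity)
    (by push_cast; rw [← mul_div_assoc, h2]) (by
      rintro ⟨k, hk⟩
      rw [hden] at hk
      rcases k with _ | k
      · exact hq1 (by simpa using hk)
      · rw [hk, pow_succ] at hq
        exact (Nat.not_even_iff_odd.2 hq) ⟨2 ^ k, by ring⟩)
  have key : ∀ n m : ℕ, least (Real.sqrt 2 / q) n ≤ m →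
      c * n ≤ (least (Real.sqrt 2) n + C) * ((m : ℝ) + C) := by
    intro n m hm
    refine (hC n).trans ?_
    have : (least (Real.sqrt 2 / q) n : ℝ) ≤ m := by exact_mod_cast hm
    gcongr
  refine ⟨c, hc, C, fun n => ⟨key n _ ?_, key n _ ?_⟩⟩
  · refine le_trans ?_ (ones_div_le hq2 n)
    unfold least; omega
  · refine le_trans ?_ (zeros_div_le hq2 n)
    unfold least; omega

end Pool.Agent.H78.SQ
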