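import Pool.Agent.H78.SQ.Digits

set_option autoImplicit false

/-!
# Digit changes of products and of rational numbers
-/

namespace Pool.Agent.H78.SQ

theorem changes_mul_le {x y : ℝ} (hx : 0 ≤ x) (hy : 0 ≤ y) {s : ℕ} (hs : x + y ≤ s) (n : ℕ)
    {m m' : ℕ} (h : W m (pre x n)) (h' : W m' (pre y n)) :
    changes (x * y) n ≤ 2 * (m * m') + s := by
  obtain ⟨j, hj, e⟩ := pre_mul hx hy hs n
  rw [changes_eq, e]
  have h1 := ch_add_nat n ((pre x n * pre y n) / 2 ^ n) j
  have h2 := ch_div_pow n n (pre x n * pre y n)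
  have h3 := ch_le (W_mul h h') (n + n)
  omega

theorem changes_sq_le {x : ℝ} (hx : 0 ≤ x) {s : ℕ} (hs : x + x ≤ s) (n : ℕ)
    {m : ℕ} (h : W m (pre x n)) : changes (x * x) n ≤ m * (m + 1) + s := by
  obtain ⟨j, hj, e⟩ := pre_mul hx hx hs n
  rw [changes_eq, e]
  have h1 := ch_add_nat n ((pre x n * pre x n) / 2 ^ n) j
  have h2 := ch_div_pow n n (pre x n * pre x n)
  have h3 := ch_le (W_sq h) (n + n)
  rw [sq] at h3
  have h4 : 2 * (m * (m + 1) / 2) ≤ m * (m + 1) := Nat.mul_div_le _ _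
  omega

/-- the numbers `b` with a digit change of `b / m` at the first place after the point -/
def Good (m b : ℕ) : Prop := m < 4 * (b % m) ∧ 4 * (b % m) < 3 * m

instance (m b : ℕ) : Decidable (Good m b) := by unfold Good; infer_instance

lemma sum_blocks (f : ℕ → ℕ) (P Q : ℕ) (h : ∀ s, Q ≤ ∑ i ∈ Finset.range P, f (s + i)) (M : ℕ) :
    M * Q ≤ ∑ i ∈ Finset.range (M * P), f i := by
  induction M with
  | zero => simp
  | succ M ih =>
    rw [Nat.succ_mul, Nat.succ_mul, Finset.sum_range_add]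
    exact Nat.add_le_add ih (h _)

lemma sum_blocks' (f : ℕ → ℕ) (P Q : ℕ) (h : ∀ s, Q ≤ ∑ i ∈ Finset.range P, f (s + i)) (N : ℕ) :
    (N / P) * Q ≤ ∑ i ∈ Finset.range N, f i := by
  refine (sum_blocks f P Q h (N / P)).trans ?_
  apply Finset.sum_le_sum_of_subset
  exact Finset.range_subset_range.2 (Nat.div_mul_le_self N P)

/-- a digit change -/
lemma change_of_good {A v m : ℕ} (hm : 0 < m) {ρ : ℝ} (hρ : ρ = (A : ℝ) / (2 ^ v * m)) {i : ℕ}
    (h : Good m (A * 2 ^ i)) : bit ρ (v + 1 + i) ≠ bit ρ (v + 1 + i + 1) := by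
  have hm' : (0 : ℝ) < m := by exact_mod_cast hm
  have e1 : ρ * 2 ^ (v + 1 + i + 1) = ((4 * (A * 2 ^ i) : ℕ) : ℝ) / (m : ℝ) := by
    rw [hρ]; push_cast
    rw [show v + 1 + i + 1 = v + i + 2 by ring, pow_add, pow_add]
    field_simp
    ring
  have e2 : pre ρ (v + 1 + i + 1) = ((4 * (A * 2 ^ i) / m : ℕ) : ℤ) := by
    unfold pre
    rw [e1, ← Int.natCast_floor_eq_floor (by positivity), Nat.floor_div_eq_div]
  have e3 := pre_succ_div ρ (v + 1 + i)
  rw [bit_eq, bit_eq, ← e3, e2]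
  obtain ⟨h1, h2⟩ := h
  set B := A * 2 ^ i
  set r := B % m with hr
  have hB : B = m * (B / m) + r := (Nat.div_add_mod B m).symm
  have e4 : 4 * B / m = 4 * (B / m) + 4 * r / m := by
    conv_lhs => rw [hB]
    rw [mul_add, show 4 * (m * (B / m)) + 4 * r = 4 * r + m * (4 * (B / m)) by ring,
      Nat.add_mul_div_left _ _ hm]
    ring
  have e5 : 4 * r / m = 1 ∨ 4 * r / m = 2 := by
    have h5 : 1 ≤ 4 * r / m := (Nat.one_le_div_iff hm).2 h1.le
    have h6 : 4 * r / m < 3 := (Nat.div_lt_iff_lt_mul hm).2 h2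
    omega
  rw [e4]
  omega

lemma changes_ge {A v m : ℕ} (hm : 0 < m) {ρ : ℝ} (hρ : ρ = (A : ℝ) / (2 ^ v * m)) (N : ℕ) :
    ∑ i ∈ Finset.range N, (if Good m (A * 2 ^ i) then 1 else 0) ≤ changes ρ (v + 1 + N) := by
  induction N with
  | zero => simp
  | succ N ih =>
    rw [Finset.sum_range_succ, ← add_assoc, changes_succ]
    have h := @change_of_good A v m hm ρ hρ N
    by_cases hG : Good m (A * 2 ^ N)
    · rw [if_pos hG, if_pos (h hG)]; omega
    · rw [if_neg hG]; omega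

/-- lower bound for the number of the digit changes from blocks -/
lemma changes_ge_blocks {A v m P Q : ℕ} (hm : 0 < m) {ρ : ℝ} (hρ : ρ = (A : ℝ) / (2 ^ v * m))
    (h : ∀ s, Q ≤ ∑ i ∈ Finset.range P, (if Good m (A * 2 ^ (s + i)) then 1 else 0)) (n : ℕ) :
    ((n - (v + 1)) / P) * Q ≤ changes ρ n := by
  by_cases hn : v + 1 ≤ n
  · obtain ⟨N, rfl⟩ := Nat.exists_eq_add_of_le hn
    rw [Nat.add_sub_cancel_left]
    exact (sum_blocks' _ P Q h N).trans (changes_ge hm hρ N)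
  · have : n - (v + 1) = 0 := by omega
    rw [this]; simp

/-- a digit change in every window of length `L` -/
lemma exists_good {m L : ℕ} (hodd : Odd m) (hL : m ≤ 2 ^ L) (b : ℕ) (hb : ¬ m ∣ b) :
    ∃ i < L, Good m (b * 2 ^ i) := by
  have hm : 0 < m := hodd.pos
  obtain ⟨c, hc⟩ := hodd
  have hr0 : b % m ≠ 0 := fun h => hb (Nat.dvd_of_mod_eq_zero h)
  have hr1 : b % m < m := Nat.mod_lt _ hm
  -- `t` the distance to the nearest multiple
  have key : ∀ t : ℕ, 0 < t → 4 * t < 3 * m → ∃ i < L, m < 4 * (t * 2 ^ i) ∧ 4 * (t * 2 ^ i) < 3 * m := by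
    intro t ht ht3
    have hex : ∃ i, m < 4 * (t * 2 ^ i) := by
      refine ⟨L, ?_⟩
      have : 2 ^ L ≤ t * 2 ^ L := Nat.le_mul_of_pos_left _ ht
      have := Nat.one_le_two_pow (n := L)
      omega
    classical
    have hi1 := Nat.find_spec hex
    have hi2 := fun j (hj : j < Nat.find hex) => Nat.find_min hex hj
    rcases hi0 : Nat.find hex with _ | i
    · rw [hi0] at hi1
      refine ⟨0, ?_, hi1, by simpa using ht3⟩
      rcases L with _ | L
      · simp at hL; omega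
      · omega
    · rw [hi0] at hi1 hi2
      have h3 := hi2 i (by omega)
      have e : t * 2 ^ (i + 1) = 2 * (t * 2 ^ i) := by rw [pow_succ]; ring
      refine ⟨i + 1, ?_, hi1, by omega⟩
      by_contra hge
      have h4 : 2 ^ L ≤ 2 ^ (i + 1) := Nat.pow_le_pow_right (by norm_num) (by omega)
      have h5 : 2 ^ i ≤ t * 2 ^ i := Nat.le_mul_of_pos_left _ ht
      rw [pow_succ] at h4
      omega
  by_cases hcase : 4 * (b % m) < 3 * m
  · obtain ⟨i, hi, h1, h2⟩ := key (b % m) (by omega) hcase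
    refine ⟨i, hi, ?_⟩
    have e : (b * 2 ^ i) % m = (b % m) * 2 ^ i := by
      rw [← Nat.mod_mul_mod, Nat.mod_eq_of_lt (by omega)]
    unfold Good; rw [e]; exact ⟨h1, h2⟩
  · obtain ⟨i, hi, h1, h2⟩ := key (m - b % m) (by omega) (by omega)
    refine ⟨i, hi, ?_⟩
    have e : (b * 2 ^ i) % m = m - (m - b % m) * 2 ^ i := by
      have h4 : (b * 2 ^ i) % m = ((b % m) * 2 ^ i) % m := (Nat.mod_mul_mod _ _ _).symm
      rw [h4]
      have h5 : (b % m) * 2 ^ i + (m - b % m) * 2 ^ i = m * 2 ^ i := by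
        rw [← add_mul]; congr 1; omega
      have h6 : (b % m) * 2 ^ i = m - (m - b % m) * 2 ^ i + m * (2 ^ i - 1) := by
        have h7 : m * 2 ^ i = m * (2 ^ i - 1) + m := by
          have := Nat.one_le_two_pow (n := i)
          conv_lhs => rw [show 2 ^ i = (2 ^ i - 1) + 1 by omega]
          ring
        omega
      rw [h6, Nat.add_mul_mod_self_left, Nat.mod_eq_of_lt (by omega)]
    unfold Good; rw [e]; omega

end Pool.Agent.H78.SQ
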