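import Mathlib

set_option autoImplicit false

/-!
# Signed binary weights of integers and digit changes
-/

namespace Pool.Agent.H78.SQ

/-- `z` is a sum of at most `m` numbers of the form `± 2 ^ i`. -/
def W (m : ℕ) (z : ℤ) : Prop :=
  ∃ l : List ℤ, l.length ≤ m ∧ (∀ e ∈ l, ∃ i : ℕ, e = 2 ^ i ∨ e = -2 ^ i) ∧ l.sum = z

/-- the number of digit changes of the integer `z` (digits in two's complement) among its last
`M + 1` digits -/
def ch : ℕ → ℤ → ℕ
  | 0, _ => 0
  | M + 1, z => (if z % 2 = (z / 2) % 2 then 0 else 1) + ch M (z / 2)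

lemma W_mono {m m' : ℕ} {z : ℤ} (h : W m z) (hm : m ≤ m') : W m' z := by
  obtain ⟨l, h1, h2, h3⟩ := h
  exact ⟨l, h1.trans hm, h2, h3⟩

lemma W_zero : W 0 0 := ⟨[], le_refl _, by simp, rfl⟩

lemma W_add {m m' : ℕ} {z z' : ℤ} (h : W m z) (h' : W m' z') : W (m + m') (z + z') := by
  obtain ⟨l, h1, h2, h3⟩ := h
  obtain ⟨l', h1', h2', h3'⟩ := h'
  refine ⟨l ++ l', by simpa using Nat.add_le_add h1 h1', ?_, by simp [h3, h3']⟩
  intro e he
  rcases List.mem_append.1 he with he | he
  · exact h2 e he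
  · exact h2' e he

lemma W_one_pow (i : ℕ) : W 1 (2 ^ i) := ⟨[2 ^ i], by simp, by simp, by simp⟩

lemma W_one_neg_pow (i : ℕ) : W 1 (-2 ^ i) :=
  ⟨[-2 ^ i], by simp, by
    intro e he
    simp at he
    exact ⟨i, Or.inr he⟩, by simp⟩

lemma W_mul_unit {m : ℕ} {z e : ℤ} (h : W m z) (he : ∃ i : ℕ, e = 2 ^ i ∨ e = -2 ^ i) :
    W m (e * z) := by
  obtain ⟨l, h1, h2, h3⟩ := h
  refine ⟨l.map (fun t => e * t), by simpa using h1, ?_, by rw [List.sum_map_mul_left]; simp [h3]⟩
  intro t ht
  obtain ⟨s, hs, rfl⟩ := List.mem_map.1 ht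
  obtain ⟨i, hi⟩ := he
  obtain ⟨j, hj⟩ := h2 s hs
  refine ⟨i + j, ?_⟩
  rcases hi with rfl | rfl <;> rcases hj with rfl | rfl <;> simp [pow_add]

lemma W_neg {m : ℕ} {z : ℤ} (h : W m z) : W m (-z) := by
  have := W_mul_unit (e := -1) h ⟨0, Or.inr (by norm_num)⟩
  simpa using this

lemma W_mul {m m' : ℕ} {z z' : ℤ} (h : W m z) (h' : W m' z') : W (m * m') (z * z') := by
  obtain ⟨l, h1, h2, h3⟩ := h
  suffices H : ∀ l : List ℤ, (∀ e ∈ l, ∃ i : ℕ, e = 2 ^ i ∨ e = -2 ^ i) →
      W (l.length * m') (l.sum * z') by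
    have := H l h2
    rw [h3] at this
    exact W_mono this (Nat.mul_le_mul_right _ h1)
  intro l
  induction l with
  | nil => intro _; simpa using W_mono W_zero (Nat.zero_le _)
  | cons e l ih =>
    intro hl
    have h4 := ih (fun t ht => hl t (List.mem_cons_of_mem _ ht))
    have h5 := W_mul_unit h' (hl e List.mem_cons_self)
    have := W_add h5 h4
    simp only [List.length_cons, List.sum_cons]
    refine W_mono (by rw [add_mul]; exact this) ?_
    rw [Nat.succ_mul]; omega

/-- the square of a number of weight `m` has weight at most `m (m + 1) / 2` -/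
lemma W_sq {m : ℕ} {z : ℤ} (h : W m z) : W (m * (m + 1) / 2) (z ^ 2) := by
  obtain ⟨l, h1, h2, h3⟩ := h
  suffices H : ∀ l : List ℤ, (∀ e ∈ l, ∃ i : ℕ, e = 2 ^ i ∨ e = -2 ^ i) →
      W (∑ i ∈ Finset.range (l.length + 1), i) (l.sum ^ 2) by
    have := H l h2
    rw [h3] at this
    refine W_mono this ?_
    rw [Finset.sum_range_id]
    apply Nat.div_le_div_right
    have : l.length + 1 ≤ m + 1 := by omega
    calc (l.length + 1) * (l.length + 1 - 1) = l.length * (l.length + 1) := by
          rw [Nat.add_sub_cancel]; ring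
      _ ≤ m * (m + 1) := Nat.mul_le_mul h1 this
  intro l
  induction l with
  | nil => intro _; simpa using W_mono W_zero (Nat.zero_le _)
  | cons e l ih =>
    intro hl
    have h4 := ih (fun t ht => hl t (List.mem_cons_of_mem _ ht))
    obtain ⟨i, hi⟩ := hl e List.mem_cons_self
    have h5 : W l.length (2 * e * l.sum) := by
      refine W_mul_unit ⟨l, le_refl _, fun t ht => hl t (List.mem_cons_of_mem _ ht), rfl⟩ ?_
      refine ⟨i + 1, ?_⟩
      rcases hi with rfl | rfl
      · left; ring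
      · right; ring
    have h6 : W 1 (e ^ 2) := by
      have : e ^ 2 = 2 ^ (2 * i) := by rcases hi with rfl | rfl <;> ring
      rw [this]; exact W_one_pow _
    have := W_add (W_add h6 h5) h4
    simp only [List.length_cons, List.sum_cons]
    rw [Finset.sum_range_succ]
    refine W_mono (by
      have e1 : (e + l.sum) ^ 2 = e ^ 2 + 2 * e * l.sum + l.sum ^ 2 := by ring
      rw [e1]; exact this) ?_
    omega

lemma ch_add_one (M : ℕ) : ∀ z : ℤ, ch M (z + 1) ≤ ch M z + 1 ∧ ch M z ≤ ch M (z + 1) + 1 := by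
  induction M with
  | zero => intro z; simp [ch]
  | succ M ih =>
    intro z
    obtain ⟨y, hy | hy⟩ : ∃ y : ℤ, z = 2 * y ∨ z = 2 * y + 1 := ⟨z / 2, by omega⟩
    · subst hy
      have e1 : (2 * y) / 2 = y := by omega
      have e2 : (2 * y + 1) / 2 = y := by omega
      simp only [ch, e1, e2]
      constructor <;> split_ifs <;> omega
    · subst hy
      have e1 : (2 * y + 1) / 2 = y := by omega
      have e2 : (2 * y + 1 + 1) / 2 = y + 1 := by omega
      simp only [ch, e1, e2]
      have := ih y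
      have h3 : ((2 * y + 1) % 2 = y % 2) ↔ ((2 * y + 1 + 1) % 2 = (y + 1) % 2) := by omega
      by_cases h : (2 * y + 1) % 2 = y % 2
      · rw [if_pos h, if_pos (h3.1 h)]; omega
      · rw [if_neg h, if_neg (fun h' => h (h3.2 h'))]; omega

lemma ch_add_pow (M : ℕ) : ∀ (i : ℕ) (z : ℤ),
    ch M (z + 2 ^ i) ≤ ch M z + 2 ∧ ch M z ≤ ch M (z + 2 ^ i) + 2 := by
  induction M with
  | zero => intro i z; simp [ch]
  | succ M ih =>
    intro i z
    rcases i with _ | _ | i
    · have := ch_add_one (M + 1) z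
      simp only [pow_zero]
      omega
    · have e1 : (z + 2 ^ (0 + 1)) / 2 = z / 2 + 1 := by norm_num; omega
      simp only [ch, e1]
      have := ch_add_one M (z / 2)
      constructor <;> split_ifs <;> omega
    · have e1 : (z + 2 ^ (i + 1 + 1)) / 2 = z / 2 + 2 ^ (i + 1) := by rw [pow_succ]; omega
      have e2 : (z + 2 ^ (i + 1 + 1)) % 2 = z % 2 := by rw [pow_succ]; omega
      have e3 : (z / 2 + 2 ^ (i + 1)) % 2 = z / 2 % 2 := by rw [pow_succ]; omega
      simp only [ch, e1, e2, e3]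
      have := ih (i + 1) (z / 2)
      omega

lemma ch_zero (M : ℕ) : ch M 0 = 0 := by
  induction M with
  | zero => rfl
  | succ M ih => simp [ch, ih]

lemma ch_add_le {m : ℕ} {z : ℤ} (h : W m z) (M : ℕ) (u : ℤ) :
    ch M (u + z) ≤ ch M u + 2 * m ∧ ch M u ≤ ch M (u + z) + 2 * m := by
  obtain ⟨l, h1, h2, h3⟩ := h
  suffices H : ∀ l : List ℤ, (∀ e ∈ l, ∃ i : ℕ, e = 2 ^ i ∨ e = -2 ^ i) → ∀ u : ℤ,
      ch M (u + l.sum) ≤ ch M u + 2 * l.length ∧ ch M u ≤ ch M (u + l.sum) + 2 * l.length by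
    have := H l h2 u
    rw [h3] at this
    omega
  intro l
  induction l with
  | nil => intro _ u; simp
  | cons e l ih =>
    intro hl u
    have h4 := ih (fun t ht => hl t (List.mem_cons_of_mem _ ht)) (u + e)
    obtain ⟨i, hi⟩ := hl e List.mem_cons_self
    have h5 : ch M (u + e) ≤ ch M u + 2 ∧ ch M u ≤ ch M (u + e) + 2 := by
      rcases hi with rfl | rfl
      · exact ch_add_pow M i u
      · have := ch_add_pow M i (u + -2 ^ i)
        rw [neg_add_cancel_right] at this
        exact ⟨this.2, this.1⟩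
    simp only [List.length_cons, List.sum_cons]
    rw [← add_assoc]
    omega

/-- a number of weight `m` has at most `2 m` digit changes -/
lemma ch_le {m : ℕ} {z : ℤ} (h : W m z) (M : ℕ) : ch M z ≤ 2 * m := by
  have := (ch_add_le h M 0).1
  rw [zero_add, ch_zero] at this
  omega

lemma ch_add_nat (M : ℕ) (u : ℤ) (j : ℕ) : ch M (u + j) ≤ ch M u + j := by
  induction j with
  | zero => simp
  | succ j ih =>
    have := (ch_add_one M (u + j)).1
    push_cast
    rw [← add_assoc]
    omega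

/-- dropping the last `n` digits -/
lemma ch_div_pow (M n : ℕ) (z : ℤ) : ch M (z / 2 ^ n) ≤ ch (M + n) z := by
  induction n generalizing z with
  | zero => simp
  | succ n ih =>
    have e1 : z / 2 ^ (n + 1) = (z / 2) / 2 ^ n := by
      rw [pow_succ', ← Int.ediv_ediv_of_nonneg (by norm_num)]
    rw [e1]
    refine (ih (z / 2)).trans ?_
    rw [show M + (n + 1) = (M + n) + 1 by ring]
    simp only [ch]
    omega

end Pool.Agent.H78.SQ
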